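import Mathlib
import Pool.Agent.W492.KC.Defs

/-!
# Right partial traces
-/

set_option autoImplicit false
set_option linter.unusedSectionVars false

open CategoryTheory MonoidalCategory

namespace Pool.Agent.W756.KC

open Pool.Agent.W492.MT (tpow tr)
open Pool.Agent.W492.KC

universe v u

section

variable {T : Type u} [Category.{v} T] [MonoidalCategory T] [SymmetricCategory T]

/-- The right partial trace with respect to a given dual of `Z`. -/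
def rq (Z Z' : T) [ExactPairing Z Z'] {A B : T} (g : A ⊗ Z ⟶ B ⊗ Z) : A ⟶ B :=
  (ρ_ A).inv ≫ (A ◁ η_ Z Z') ≫ (α_ A Z Z').inv ≫ (g ▷ Z') ≫ (α_ B Z Z').hom ≫
    (B ◁ ((β_ Z Z').hom ≫ ε_ Z Z')) ≫ (ρ_ B).hom

theorem mate {X Y : T} (X' Y' : T) [ExactPairing X X'] [ExactPairing Y Y'] (f : X ⟶ Y) :
    ∃ k : Y' ⟶ X', η_ Y Y' ≫ (Y ◁ k) = η_ X X' ≫ (f ▷ X') ∧
      (k ▷ X) ≫ ε_ X X' = (Y' ◁ f) ≫ ε_ Y Y' :=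
  ⟨@rightAdjointMate T _ _ X Y ⟨X'⟩ ⟨Y'⟩ f,
    @coevaluation_comp_rightAdjointMate T _ _ X Y ⟨X'⟩ ⟨Y'⟩ f,
    @rightAdjointMate_comp_evaluation T _ _ X Y ⟨X'⟩ ⟨Y'⟩ f⟩

theorem rq_left (Z Z' : T) [ExactPairing Z Z'] {A A' B : T} (a : A' ⟶ A) (g : A ⊗ Z ⟶ B ⊗ Z) :
    rq Z Z' ((a ▷ Z) ≫ g) = a ≫ rq Z Z' g := by
  simp only [rq, comp_whiskerRight, Category.assoc]
  rw [← associator_inv_naturality_left_assoc, whisker_exchange_assoc,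
    rightUnitor_inv_naturality_assoc]

theorem rq_right (Z Z' : T) [ExactPairing Z Z'] {A B B' : T} (b : B ⟶ B')
    (g : A ⊗ Z ⟶ B ⊗ Z) : rq Z Z' (g ≫ (b ▷ Z)) = rq Z Z' g ≫ b := by
  simp only [rq, comp_whiskerRight, Category.assoc]
  rw [associator_naturality_left_assoc, ← rightUnitor_naturality, whisker_exchange_assoc]

theorem rq_cyc (Z Z' W W' : T) [ExactPairing Z Z'] [ExactPairing W W'] {A B : T} (c : Z ⟶ W)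
    (g : A ⊗ W ⟶ B ⊗ Z) : rq Z Z' ((A ◁ c) ≫ g) = rq W W' (g ≫ (B ◁ c)) := by
  obtain ⟨k, h1, h2⟩ := mate Z' W' c
  have h3 : (Z ◁ k) ≫ (β_ Z Z').hom ≫ ε_ Z Z' = (c ▷ W') ≫ (β_ W W').hom ≫ ε_ W W' := by
    rw [BraidedCategory.braiding_naturality_right_assoc, h2,
      BraidedCategory.braiding_naturality_left_assoc]
  calc rq Z Z' ((A ◁ c) ≫ g) = (ρ_ A).inv ≫ (A ◁ (η_ Z Z' ≫ (c ▷ Z'))) ≫ (α_ A W Z').inv ≫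
        (g ▷ Z') ≫ (α_ B Z Z').hom ≫ (B ◁ ((β_ Z Z').hom ≫ ε_ Z Z')) ≫ (ρ_ B).hom := by
        simp only [rq]
        monoidal
    _ = (ρ_ A).inv ≫ (A ◁ (η_ W W' ≫ (W ◁ k))) ≫ (α_ A W Z').inv ≫
        (g ▷ Z') ≫ (α_ B Z Z').hom ≫ (B ◁ ((β_ Z Z').hom ≫ ε_ Z Z')) ≫ (ρ_ B).hom := by rw [h1]
    _ = (ρ_ A).inv ≫ (A ◁ η_ W W') ≫ (α_ A W W').inv ≫
        (((A ⊗ W) ◁ k) ≫ (g ▷ Z')) ≫ (α_ B Z Z').hom ≫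
        (B ◁ ((β_ Z Z').hom ≫ ε_ Z Z')) ≫ (ρ_ B).hom := by monoidal
    _ = (ρ_ A).inv ≫ (A ◁ η_ W W') ≫ (α_ A W W').inv ≫
        ((g ▷ W') ≫ ((B ⊗ Z) ◁ k)) ≫ (α_ B Z Z').hom ≫
        (B ◁ ((β_ Z Z').hom ≫ ε_ Z Z')) ≫ (ρ_ B).hom := by rw [whisker_exchange]
    _ = (ρ_ A).inv ≫ (A ◁ η_ W W') ≫ (α_ A W W').inv ≫
        (g ▷ W') ≫ (α_ B Z W').hom ≫
        (B ◁ ((Z ◁ k) ≫ (β_ Z Z').hom ≫ ε_ Z Z')) ≫ (ρ_ B).hom := by monoidal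
    _ = (ρ_ A).inv ≫ (A ◁ η_ W W') ≫ (α_ A W W').inv ≫
        (g ▷ W') ≫ (α_ B Z W').hom ≫
        (B ◁ ((c ▷ W') ≫ (β_ W W').hom ≫ ε_ W W')) ≫ (ρ_ B).hom := by rw [h3]
    _ = _ := by
        simp only [rq]
        monoidal

/-- The right partial trace does not depend on the dual. -/
theorem rq_indep (Z Z' Z'' : T) [ExactPairing Z Z'] [ExactPairing Z Z''] {A B : T}
    (g : A ⊗ Z ⟶ B ⊗ Z) : rq Z Z' g = rq Z Z'' g := by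
  have h := rq_cyc Z Z' Z Z'' (𝟙 Z) g
  rwa [MonoidalCategory.whiskerLeft_id, MonoidalCategory.whiskerLeft_id, Category.id_comp,
    Category.comp_id] at h

theorem rq_whisker (Z Z' : T) [ExactPairing Z Z'] (A : T) (c : Z ⟶ Z) :
    rq Z Z' (A ◁ c) = (ρ_ A).inv ≫ (A ◁ (η_ Z Z' ≫ c ▷ Z' ≫ (β_ Z Z').hom ≫ ε_ Z Z')) ≫
      (ρ_ A).hom := by
  simp only [rq]
  monoidal

theorem rq_wl (Z Z' : T) [ExactPairing Z Z'] (X : T) {A B : T} (d : A ⊗ Z ⟶ B ⊗ Z) :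
    rq Z Z' ((α_ X A Z).hom ≫ (X ◁ d) ≫ (α_ X B Z).inv) = X ◁ rq Z Z' d := by
  simp only [rq]
  monoidal

/-- Yanking. -/
theorem rq_braid (X X' : T) [ExactPairing X X'] : rq X X' (β_ X X).hom = 𝟙 X := by
  have h := BraidedCategory.hexagon_forward X X X'
  calc rq X X' (β_ X X).hom = (ρ_ X).inv ≫ (X ◁ η_ X X') ≫ (α_ X X X').inv ≫
        ((β_ X X).hom ▷ X' ≫ (α_ X X X').hom ≫ X ◁ (β_ X X').hom) ≫ (X ◁ ε_ X X') ≫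
        (ρ_ X).hom := by
        simp only [rq]
        monoidal
    _ = (ρ_ X).inv ≫ (X ◁ η_ X X') ≫ (β_ X (X ⊗ X')).hom ≫ (α_ X X' X).hom ≫ (X ◁ ε_ X X') ≫
        (ρ_ X).hom := by
        rw [← h]
        simp only [Category.assoc, Iso.inv_hom_id_assoc]
    _ = (ρ_ X).inv ≫ (β_ X (𝟙_ T)).hom ≫ (η_ X X' ▷ X) ≫ (α_ X X' X).hom ≫ (X ◁ ε_ X X') ≫
        (ρ_ X).hom := by
        rw [BraidedCategory.braiding_naturality_right_assoc]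
    _ = _ := by
        rw [ExactPairing.evaluation_coevaluation_assoc]
        simp

theorem nest1 {X X' : T} (Z' : T) (e : X ⊗ X' ⟶ 𝟙_ T) :
    (e ▷ Z') ≫ (λ_ Z').hom = (α_ X X' Z').hom ≫ X ◁ (β_ X' Z').hom ≫ (α_ X Z' X').inv ≫
      (β_ X Z').hom ▷ X' ≫ (α_ Z' X X').hom ≫ Z' ◁ e ≫ (ρ_ Z').hom := by
  have h1 : (e ▷ Z') ≫ (λ_ Z').hom = (e ▷ Z') ≫ (β_ (𝟙_ T) Z').hom ≫ (ρ_ Z').hom := by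
    rw [braiding_rightUnitor]
  rw [h1, BraidedCategory.braiding_naturality_left_assoc, BraidedCategory.braiding_tensor_left_hom]
  simp only [Category.assoc]

theorem nest2 {X X' : T} (Z' : T) (e : X' ⊗ X ⟶ 𝟙_ T) :
    (β_ X (Z' ⊗ X')).hom ≫ (α_ Z' X' X).hom ≫ (Z' ◁ e) ≫ (ρ_ Z').hom =
      X ◁ (β_ Z' X').hom ≫ (α_ X X' Z').inv ≫ (((β_ X X').hom ≫ e) ▷ Z') ≫ (λ_ Z').hom := by
  rw [nest1, BraidedCategory.braiding_tensor_right_hom]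
  have hs : X ◁ (β_ Z' X').hom ≫ X ◁ (β_ X' Z').hom = 𝟙 _ := by
    rw [← MonoidalCategory.whiskerLeft_comp, SymmetricCategory.symmetry,
      MonoidalCategory.whiskerLeft_id]
  simp only [Category.assoc, Iso.inv_hom_id_assoc]
  rw [reassoc_of% hs]
  simp only [MonoidalCategory.whiskerLeft_comp, Category.assoc]

theorem nest (X X' Z Z' : T) (eX : X' ⊗ X ⟶ 𝟙_ T) (eZ : Z' ⊗ Z ⟶ 𝟙_ T) :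
    (β_ (X ⊗ Z) (Z' ⊗ X')).hom ≫ (𝟙 _ ⊗≫ Z' ◁ (eX ▷ Z) ⊗≫ eZ) =
      𝟙 _ ⊗≫ X ◁ (((β_ Z Z').hom ≫ eZ) ▷ X') ⊗≫ ((β_ X X').hom ≫ eX) := by
  calc (β_ (X ⊗ Z) (Z' ⊗ X')).hom ≫ (𝟙 _ ⊗≫ Z' ◁ (eX ▷ Z) ⊗≫ eZ)
      = 𝟙 _ ⊗≫ X ◁ (β_ Z (Z' ⊗ X')).hom ⊗≫ (((β_ X (Z' ⊗ X')).hom ≫ (α_ Z' X' X).hom ≫
        (Z' ◁ eX) ≫ (ρ_ Z').hom) ▷ Z) ⊗≫ eZ := by
        rw [BraidedCategory.braiding_tensor_left_hom]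
        monoidal
    _ = 𝟙 _ ⊗≫ X ◁ (β_ Z (Z' ⊗ X')).hom ⊗≫ ((X ◁ (β_ Z' X').hom ≫ (α_ X X' Z').inv ≫
        (((β_ X X').hom ≫ eX) ▷ Z') ≫ (λ_ Z').hom) ▷ Z) ⊗≫ eZ := by rw [nest2]
    _ = 𝟙 _ ⊗≫ X ◁ ((β_ Z (Z' ⊗ X')).hom ≫ ((β_ Z' X').hom ▷ Z)) ⊗≫
        (((β_ X X').hom ≫ eX) ▷ (Z' ⊗ Z)) ⊗≫ eZ := by monoidal
    _ = 𝟙 _ ⊗≫ X ◁ ((Z ◁ (β_ Z' X').hom) ≫ (β_ Z (X' ⊗ Z')).hom) ⊗≫
        (((β_ X X').hom ≫ eX) ▷ (Z' ⊗ Z)) ⊗≫ eZ := by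
        rw [BraidedCategory.braiding_naturality_right]
    _ = 𝟙 _ ⊗≫ X ◁ ((Z ◁ (β_ Z' X').hom) ≫ (α_ Z X' Z').inv ≫ (β_ Z X').hom ▷ Z' ≫
        (α_ X' Z Z').hom ≫ X' ◁ (β_ Z Z').hom) ⊗≫
        ((((β_ X X').hom ≫ eX) ▷ (Z' ⊗ Z)) ≫ ((𝟙_ T) ◁ eZ)) ⊗≫ 𝟙 _ := by
        rw [BraidedCategory.braiding_tensor_right_hom]
        monoidal
    _ = 𝟙 _ ⊗≫ X ◁ ((Z ◁ (β_ Z' X').hom) ≫ (α_ Z X' Z').inv ≫ (β_ Z X').hom ▷ Z' ≫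
        (α_ X' Z Z').hom ≫ X' ◁ (β_ Z Z').hom) ⊗≫
        (((X ⊗ X') ◁ eZ) ≫ (((β_ X X').hom ≫ eX) ▷ (𝟙_ T))) ⊗≫ 𝟙 _ := by
        rw [← whisker_exchange]
    _ = 𝟙 _ ⊗≫ X ◁ ((α_ Z Z' X').hom ≫ Z ◁ (β_ Z' X').hom ≫ (α_ Z X' Z').inv ≫
      (β_ Z X').hom ▷ Z' ≫ (α_ X' Z Z').hom ≫ X' ◁ ((β_ Z Z').hom ≫ eZ) ≫ (ρ_ X').hom) ⊗≫
        ((β_ X X').hom ≫ eX) := by monoidal
    _ = 𝟙 _ ⊗≫ X ◁ ((((β_ Z Z').hom ≫ eZ) ▷ X') ≫ (λ_ X').hom) ⊗≫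
        ((β_ X X').hom ≫ eX) := by rw [nest1]
    _ = _ := by monoidal

/-- Fubini. -/
theorem rq_tensor (X X' Z Z' : T) [ExactPairing X X'] [ExactPairing Z Z'] {A B : T}
    (g : A ⊗ (X ⊗ Z) ⟶ B ⊗ (X ⊗ Z)) :
    rq (X ⊗ Z) (Z' ⊗ X') g =
      rq X X' (rq Z Z' ((α_ A X Z).hom ≫ g ≫ (α_ B X Z).inv)) := by
  have h := nest X X' Z Z' (ε_ X X') (ε_ Z Z')
  rw [← ExactPairing.tensor_evaluation] at h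
  simp only [rq]
  rw [h, ExactPairing.tensor_coevaluation]
  monoidal

theorem rq_swp (X X' Z Z' : T) [ExactPairing X X'] [ExactPairing Z Z']
    (d : X ⊗ Z ⟶ X ⊗ Z) :
    rq (X ⊗ Z) (Z' ⊗ X') (swp X Z ≫ (X ◁ d)) = rq Z Z' d := by
  rw [rq_tensor]
  have h1 : (α_ X X Z).hom ≫ (swp X Z ≫ (X ◁ d)) ≫ (α_ X X Z).inv =
      ((β_ X X).hom ▷ Z) ≫ ((α_ X X Z).hom ≫ (X ◁ d) ≫ (α_ X X Z).inv) := by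
    simp only [swp, Category.assoc, Iso.hom_inv_id_assoc]
  rw [h1, rq_left, rq_wl, ← BraidedCategory.braiding_naturality_left, rq_left, rq_braid,
    Category.comp_id]

theorem rq_unit {A B : T} (g : A ⊗ 𝟙_ T ⟶ B ⊗ 𝟙_ T) :
    rq (𝟙_ T) (𝟙_ T) g = (ρ_ A).inv ≫ g ≫ (ρ_ B).hom := by
  have h1 : η_ (𝟙_ T) (𝟙_ T) = (ρ_ (𝟙_ T)).inv := rfl
  have h2 : ε_ (𝟙_ T) (𝟙_ T) = (ρ_ (𝟙_ T)).hom := rfl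
  have h3 : (β_ (𝟙_ T) (𝟙_ T)).hom ≫ (ρ_ (𝟙_ T)).hom = (λ_ (𝟙_ T)).hom :=
    braiding_rightUnitor _
  simp only [rq]
  rw [h1, h2, h3]
  monoidal

/-! ## the partial trace with respect to the chosen duals -/

variable [RightRigidCategory T]

/-- The partial trace over the right factor. -/
def rpt (Z : T) {A B : T} (g : A ⊗ Z ⟶ B ⊗ Z) : A ⟶ B :=
  (ρ_ A).inv ≫ (A ◁ η_ Z Zᘁ) ≫ (α_ A Z Zᘁ).inv ≫ (g ▷ Zᘁ) ≫ (α_ B Z Zᘁ).hom ≫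
    (B ◁ ((β_ Z Zᘁ).hom ≫ ε_ Z Zᘁ)) ≫ (ρ_ B).hom

theorem rpt_eq (Z Z' : T) [ExactPairing Z Z'] {A B : T} (g : A ⊗ Z ⟶ B ⊗ Z) :
    rpt Z g = rq Z Z' g := rq_indep Z Zᘁ Z' g

theorem rpt_left (Z : T) {A A' B : T} (a : A' ⟶ A) (g : A ⊗ Z ⟶ B ⊗ Z) :
    rpt Z ((a ▷ Z) ≫ g) = a ≫ rpt Z g := rq_left Z Zᘁ a g

theorem rpt_right (Z : T) {A B B' : T} (b : B ⟶ B') (g : A ⊗ Z ⟶ B ⊗ Z) :
    rpt Z (g ≫ (b ▷ Z)) = rpt Z g ≫ b := rq_right Z Zᘁ b g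

theorem rpt_cyc' (Z W : T) {A B : T} (c : Z ⟶ W) (g : A ⊗ W ⟶ B ⊗ Z) :
    rpt Z ((A ◁ c) ≫ g) = rpt W (g ≫ (B ◁ c)) := rq_cyc Z Zᘁ W Wᘁ c g

theorem rpt_cyc (Z : T) {A B : T} (c : Z ⟶ Z) (g : A ⊗ Z ⟶ B ⊗ Z) :
    rpt Z ((A ◁ c) ≫ g) = rpt Z (g ≫ (B ◁ c)) := rpt_cyc' Z Z c g

theorem rpt_whisker (Z A : T) (c : Z ⟶ Z) :
    rpt Z (A ◁ c) = (ρ_ A).inv ≫ (A ◁ tr c) ≫ (ρ_ A).hom := rq_whisker Z Zᘁ A c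

theorem rpt_wl (Z X : T) {A B : T} (d : A ⊗ Z ⟶ B ⊗ Z) :
    rpt Z ((α_ X A Z).hom ≫ (X ◁ d) ≫ (α_ X B Z).inv) = X ◁ rpt Z d := rq_wl Z Zᘁ X d

theorem rpt_braid (X : T) : rpt X (β_ X X).hom = 𝟙 X := rq_braid X Xᘁ

theorem rpt_tensor (X Z : T) {A B : T} (g : A ⊗ (X ⊗ Z) ⟶ B ⊗ (X ⊗ Z)) :
    rpt (X ⊗ Z) g = rpt X (rpt Z ((α_ A X Z).hom ≫ g ≫ (α_ B X Z).inv)) :=
  (rpt_eq (X ⊗ Z) (Zᘁ ⊗ Xᘁ) g).trans (rq_tensor X Xᘁ Z Zᘁ g)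

theorem rpt_swp (X Z : T) (d : X ⊗ Z ⟶ X ⊗ Z) :
    rpt (X ⊗ Z) (swp X Z ≫ (X ◁ d)) = rpt Z d :=
  (rpt_eq (X ⊗ Z) (Zᘁ ⊗ Xᘁ) _).trans (rq_swp X Xᘁ Z Zᘁ d)

theorem rpt_unit {A B : T} (g : A ⊗ 𝟙_ T ⟶ B ⊗ 𝟙_ T) :
    rpt (𝟙_ T) g = (ρ_ A).inv ≫ g ≫ (ρ_ B).hom :=
  (rpt_eq (𝟙_ T) (𝟙_ T) g).trans (rq_unit g)

theorem tr_eq_rpt {X : T} (c : X ⟶ X) : (𝟙_ T) ◁ tr c = (ρ_ (𝟙_ T)).hom ≫ rpt X ((𝟙_ T) ◁ c) ≫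
    (ρ_ (𝟙_ T)).inv := by
  rw [rpt_whisker]
  simp

theorem tr_cyc {X Y : T} (f : X ⟶ Y) (g : Y ⟶ X) : tr (f ≫ g) = tr (g ≫ f) := by
  have h : rpt X ((𝟙_ T) ◁ (f ≫ g)) = rpt Y ((𝟙_ T) ◁ (g ≫ f)) := by
    rw [MonoidalCategory.whiskerLeft_comp, MonoidalCategory.whiskerLeft_comp]
    exact rpt_cyc' X Y f ((𝟙_ T) ◁ g)
  rw [rpt_whisker, rpt_whisker] at h
  have h2 := congrArg (fun z => (ρ_ (𝟙_ T)).hom ≫ z ≫ (ρ_ (𝟙_ T)).inv) h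
  simp only [Category.assoc, Iso.hom_inv_id_assoc, Iso.hom_inv_id, Category.comp_id] at h2
  have h3 : ∀ c : 𝟙_ T ⟶ 𝟙_ T, c = (λ_ (𝟙_ T)).inv ≫ ((𝟙_ T) ◁ c) ≫ (λ_ (𝟙_ T)).hom := by
    intro c
    simp
  rw [h3 (tr (f ≫ g)), h2, ← h3]

theorem rpt_add [Preadditive T] [MonoidalPreadditive T] (Z : T) {A B : T}
    (g h : A ⊗ Z ⟶ B ⊗ Z) : rpt Z (g + h) = rpt Z g + rpt Z h := by
  simp only [rpt, MonoidalPreadditive.add_whiskerRight, Preadditive.add_comp,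
    Preadditive.comp_add]

end

end Pool.Agent.W756.KC
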